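import Mathlib
import Pool.Agent.Q256.T6.Res
import Pool.Agent.Q176.T6.Gauss
import Pool.Agent.Q296.T6.Disc

set_option autoImplicit false

/-!
Superelliptic curves: the discriminant of the field of a point.
-/

namespace Pool.Agent.Q256.T7

open Finset NumberField Pool.Agent.Q256.T6
open Pool.Agent.Q256.T3 (P P_coeff P_deg N1 N1_eq)
open Pool.Agent.H813R3.Voj (rho rho_pos)

theorem ideal_data {d : ℕ} (g : Polynomial ℤ) (hg : Irreducible g) (K : Type) [Field K]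
    [NumberField K] (x : K) (hfr : Module.finrank ℚ K = g.natDegree)
    (hx : Algebra.adjoin ℚ {x} = ⊤) (h0 : Polynomial.aeval x g = 0) (c : Fin (d + 1) → ℤ)
    (hres : res c g ≠ 0) :
    ∃ (b : 𝓞 K) (I J : Ideal (𝓞 K)) (z : 𝓞 K), b ≠ 0 ∧ I ≠ ⊥ ∧ J ≠ ⊥ ∧
      (z : K) = (b : K) ^ d * Polynomial.aeval x (P c) ∧ Ideal.span {z} = I ^ d * J ∧
      Ideal.absNorm J = (res c g).natAbs := by
  have hg0 := hg.ne_zero
  have hlc : g.leadingCoeff ≠ 0 := Polynomial.leadingCoeff_ne_zero.2 hg0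
  have hlcN : 0 < g.leadingCoeff.natAbs := Int.natAbs_pos.2 hlc
  have h1 : IsIntegral ℤ ((g.leadingCoeff : K) * x) := by
    have := isIntegral_leadingCoeff_smul (R := ℤ) g x h0
    rwa [zsmul_eq_mul] at this
  obtain ⟨a, ha⟩ : ∃ a : 𝓞 K, (a : K) = (g.leadingCoeff : K) * x := ⟨⟨_, h1⟩, rfl⟩
  obtain ⟨z, hz⟩ := exists_w g K x h0 c
  obtain ⟨b, hb⟩ : ∃ b : 𝓞 K, b = (g.leadingCoeff : 𝓞 K) := ⟨_, rfl⟩
  have hbK : (b : K) = (g.leadingCoeff : K) := by rw [hb]; simp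
  have hb0 : b ≠ 0 := by
    rw [hb]
    exact_mod_cast hlc
  have hI0 : Ideal.span {a, b} ≠ ⊥ := by
    intro h
    rw [Ideal.span_eq_bot] at h
    exact hb0 (h b (by simp))
  -- the value lies in `I ^ d`
  have hmem : z ∈ (Ideal.span {a, b}) ^ d := by
    have h2 : z = ∑ i : Fin (d + 1), (c i : 𝓞 K) * (a ^ (i : ℕ) * b ^ (d - (i : ℕ))) := by
      apply RingOfIntegers.ext
      rw [hz, RingOfIntegers.coe_eq_algebraMap, map_sum]
      unfold P
      rw [map_sum, mul_sum]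
      refine sum_congr rfl (fun i _ => ?_)
      rw [map_mul (algebraMap (𝓞 K) K), map_mul (algebraMap (𝓞 K) K), map_pow (algebraMap (𝓞 K) K),
        map_pow (algebraMap (𝓞 K) K), map_intCast, ← RingOfIntegers.coe_eq_algebraMap a,
        ← RingOfIntegers.coe_eq_algebraMap b, ha, hbK]
      have h4 : (g.leadingCoeff : K) ^ d =
          (g.leadingCoeff : K) ^ (d - (i : ℕ)) * (g.leadingCoeff : K) ^ (i : ℕ) := by
        rw [← pow_add]; congr 1; omega
      rw [h4]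
      simp only [map_mul, map_pow, Polynomial.aeval_X, eq_intCast, map_intCast]
      ring
    rw [h2]
    refine Ideal.sum_mem _ (fun i _ => Ideal.mul_mem_left _ _ ?_)
    have h3 : (Ideal.span {a, b}) ^ d =
        (Ideal.span {a, b}) ^ (i : ℕ) * (Ideal.span {a, b}) ^ (d - (i : ℕ)) := by
      rw [← pow_add]; congr 1; omega
    rw [h3]
    exact Ideal.mul_mem_mul (Ideal.pow_mem_pow (Ideal.subset_span (by simp)) _)
      (Ideal.pow_mem_pow (Ideal.subset_span (by simp)) _)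
  obtain ⟨J, hJ⟩ := Ideal.dvd_span_singleton.2 hmem
  -- the norms
  have hn1 := norm_w g hg0 K x hfr hx h0 c z hz
  have hn2 : (Algebra.norm ℤ z).natAbs * g.leadingCoeff.natAbs ^ d =
      g.leadingCoeff.natAbs ^ (d * g.natDegree) * (res c g).natAbs := by
    have e2 := congrArg Int.natAbs hn1
    rw [Int.natAbs_mul, Int.natAbs_mul, Int.natAbs_pow, Int.natAbs_pow] at e2
    rw [mul_comm]
    exact e2
  have hn3 : (Algebra.norm ℤ b).natAbs = g.leadingCoeff.natAbs ^ g.natDegree := by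
    have e1 : b = algebraMap ℤ (𝓞 K) g.leadingCoeff := by rw [hb]; simp
    rw [e1, Algebra.norm_algebraMap, Int.natAbs_pow, RingOfIntegers.rank, hfr]
  have hn4 := Pool.Agent.Q176.T6.gauss K x g a b (IntermediateField.adjoin_eq_top_of_algebra ℚ _ hx)
    hg h0 hb0 (by rw [ha, hbK])
  rw [hn3] at hn4
  have hn5 : (Algebra.norm ℤ z).natAbs = Ideal.absNorm (Ideal.span {a, b}) ^ d *
      Ideal.absNorm J := by
    rw [← Ideal.absNorm_span_singleton, hJ, map_mul, map_pow]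
  have hn6 : Ideal.absNorm J = (res c g).natAbs := by
    have e1 : g.leadingCoeff.natAbs ^ (d * g.natDegree) * Ideal.absNorm J =
        g.leadingCoeff.natAbs ^ (d * g.natDegree) * (res c g).natAbs := by
      rw [← hn2, hn5, mul_comm d g.natDegree, pow_mul, ← hn4, mul_pow]
      ring
    exact Nat.eq_of_mul_eq_mul_left (pow_pos hlcN _) e1
  refine ⟨b, Ideal.span {a, b}, J, z, hb0, hI0, ?_, by rw [hz, hbK], hJ, hn6⟩
  rintro rfl
  rw [Ideal.absNorm_bot] at hn6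
  exact hres (Int.natAbs_eq_zero.1 hn6.symm)

/-- **The ideal of the value becomes a power in the field of a point of the curve.** -/
theorem power_of_point {d : ℕ} (m k : ℕ) (hm : 1 ≤ m) (hd : d = m * k) (K L : Type) [Field K]
    [NumberField K] [Field L] [NumberField L] [Algebra K L] (b : 𝓞 K) (I J : Ideal (𝓞 K))
    (z : 𝓞 K) (hI : I ≠ ⊥) (v : K) (hz : (z : K) = (b : K) ^ d * v)
    (hJ : Ideal.span {z} = I ^ d * J) (w : L) (hw : w ^ m = algebraMap K L v) :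
    ∃ W : Ideal (𝓞 L), J.map (algebraMap (𝓞 K) (𝓞 L)) = W ^ m := by
  have hy : (algebraMap K L (b : K) ^ k * w) ^ m = algebraMap K L (z : K) := by
    rw [mul_pow, hw, hz, map_mul, map_pow, ← pow_mul, hd, mul_comm k m]
  have hint : IsIntegral ℤ (algebraMap K L (b : K) ^ k * w) := by
    refine IsIntegral.of_pow (n := m) hm ?_
    rw [hy]
    exact (RingOfIntegers.isIntegral_coe z).algebraMap
  obtain ⟨y, hy0⟩ : ∃ y : 𝓞 L, (y : L) = algebraMap K L (b : K) ^ k * w := ⟨⟨_, hint⟩, rfl⟩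
  have hym : y ^ m = algebraMap (𝓞 K) (𝓞 L) z := by
    apply RingOfIntegers.ext
    have e1 : ((y ^ m : 𝓞 L) : L) = (y : L) ^ m := by simp
    rw [e1, hy0, hy]
    rfl
  obtain ⟨A, hA⟩ : ∃ A : Ideal (𝓞 L), A = I.map (algebraMap (𝓞 K) (𝓞 L)) := ⟨_, rfl⟩
  have hA0 : A ≠ ⊥ := by
    rw [hA]
    exact (Ideal.map_eq_bot_iff_of_injective
      (FaithfulSMul.algebraMap_injective (𝓞 K) (𝓞 L))).not.2 hI
  have h1 : Ideal.span {y} ^ m = (A ^ k) ^ m * J.map (algebraMap (𝓞 K) (𝓞 L)) := by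
    rw [Ideal.span_singleton_pow, hym, ← Set.image_singleton, ← Ideal.map_span, hJ, Ideal.map_mul,
      Ideal.map_pow, ← hA, ← pow_mul, hd, mul_comm k m]
  have h2 : A ^ k ∣ Ideal.span {y} := by
    rw [← UniqueFactorizationMonoid.pow_dvd_pow_iff_dvd (by omega : m ≠ 0)]
    exact ⟨_, h1⟩
  obtain ⟨W, hW⟩ := h2
  refine ⟨W, ?_⟩
  rw [hW, mul_pow] at h1
  have h3 : (A ^ k) ^ m ≠ 0 := pow_ne_zero _ (pow_ne_zero _ hA0)
  exact (mul_left_cancel₀ h3 h1).symm

end Pool.Agent.Q256.T7
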