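import Mathlib
import Pool.Agent.Q256.T7.Dsc

set_option autoImplicit false

/-!
Superelliptic curves: the discriminant of the field of a point.
-/

namespace Pool.Agent.Q256.T7

open Finset NumberField Pool.Agent.Q256.T6
open Pool.Agent.Q256.T3 (P P_coeff P_deg N1 N1_eq)

theorem sum_log (n m : ℕ) (hn : n ≠ 0) :
    ∑ p ∈ n.primeFactors, (1 - (padicValNat p n : ℝ) / m) * Real.log p =
      ∑ p ∈ n.primeFactors, Real.log p - 1 / (m : ℝ) * Real.log n := by
  have h1 : Real.log n = ∑ p ∈ n.primeFactors, (padicValNat p n : ℝ) * Real.log p := by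
    have h2 := Nat.prod_primeFactors_pow_factorization hn
    conv_lhs => rw [h2]
    push_cast
    rw [Real.log_prod]
    · refine sum_congr rfl (fun p hp => ?_)
      rw [Real.log_pow, Nat.factorization_def n (Nat.prime_of_mem_primeFactors hp)]
    · intro p hp
      have := (Nat.prime_of_mem_primeFactors hp).ne_zero
      positivity
  rw [h1, mul_sum, ← sum_sub_distrib]
  refine sum_congr rfl (fun p _ => ?_)
  ring

theorem natDegree_eq (L : Type) [Field L] [NumberField L] (x : L) (g : Polynomial ℤ)
    (hg : Irreducible g) (h1 : 1 ≤ g.natDegree) (h0 : Polynomial.aeval x g = 0) :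
    (minpoly ℚ x).natDegree = g.natDegree := by
  have hprim : g.IsPrimitive := hg.isPrimitive (by omega)
  have hirr : Irreducible (g.map (Int.castRingHom ℚ)) :=
    (Polynomial.IsPrimitive.Int.irreducible_iff_irreducible_map_cast hprim).1 hg
  have h2 : Polynomial.aeval x (g.map (Int.castRingHom ℚ)) = 0 := by
    have := Polynomial.aeval_map_algebraMap ℚ x g
    rw [show algebraMap ℤ ℚ = Int.castRingHom ℚ from rfl] at this
    rw [this, h0]
  have h3 := minpoly.eq_of_irreducible hirr h2
  rw [← h3, Polynomial.natDegree_mul_C, Polynomial.natDegree_map_eq_of_injective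
    Int.cast_injective]
  rw [ne_eq, inv_eq_zero, Polynomial.leadingCoeff_eq_zero]
  exact hirr.ne_zero

/-- **The discriminant of the field of a point of the curve `w ^ m = F(x)`.** -/
theorem disc_ge {d : ℕ} (m k : ℕ) (hm : 1 ≤ m) (hd : d = m * k) (L : Type) [Field L]
    [NumberField L] (g : Polynomial ℤ) (hg : Irreducible g) (h1 : 1 ≤ g.natDegree) (x w : L)
    (h0 : Polynomial.aeval x g = 0) (c : Fin (d + 1) → ℤ) (hw : w ^ m = Polynomial.aeval x (P c))
    (hres : res c g ≠ 0) :
    N1 ∅ g.natDegree (res c g) - 1 / ((g.natDegree : ℝ) * m) * Real.log |(res c g : ℝ)| ≤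
      Real.log |(discr L : ℝ)| / Module.finrank ℚ L := by
  have hxint : IsIntegral ℚ x := Algebra.IsIntegral.isIntegral x
  obtain ⟨y, hy⟩ : ∃ y : IntermediateField.adjoin ℚ {x}, y = IntermediateField.AdjoinSimple.gen ℚ x :=
    ⟨_, rfl⟩
  have hyx : algebraMap (IntermediateField.adjoin ℚ {x}) L y = x := by
    rw [hy]; exact IntermediateField.AdjoinSimple.algebraMap_gen ℚ x
  have haev : ∀ q : Polynomial ℤ, algebraMap (IntermediateField.adjoin ℚ {x}) L
      (Polynomial.aeval y q) = Polynomial.aeval x q := by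
    intro q
    rw [← Polynomial.aeval_algebraMap_apply, hyx]
  have h0y : Polynomial.aeval y g = 0 := by
    apply (algebraMap (IntermediateField.adjoin ℚ {x}) L).injective
    rw [haev, h0, map_zero]
  have hfr : Module.finrank ℚ (IntermediateField.adjoin ℚ {x}) = g.natDegree := by
    rw [IntermediateField.adjoin.finrank hxint, natDegree_eq L x g hg h1 h0]
  have hadj : Algebra.adjoin ℚ {y} = ⊤ := by
    have := (IntermediateField.adjoin.powerBasis hxint).adjoin_gen_eq_top
    rw [IntermediateField.adjoin.powerBasis_gen] at this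
    rw [hy]
    exact this
  obtain ⟨b, I, J, z, hb, hI, hJ, hz, hzJ, hnJ⟩ := ideal_data g hg
    (IntermediateField.adjoin ℚ {x}) y hfr hadj h0y c hres
  obtain ⟨W, hW⟩ := power_of_point m k hm hd (IntermediateField.adjoin ℚ {x}) L b I J z hI
    (Polynomial.aeval y (P c)) hz hzJ w (by rw [haev, hw])
  have h2 := Pool.Agent.Q296.T6.disc (IntermediateField.adjoin ℚ {x}) L m J W hm hJ hW
  have hv0 : (res c g).natAbs ≠ 0 := Int.natAbs_ne_zero.2 hres
  rw [hnJ, sum_log _ m hv0] at h2
  have h3 : Module.finrank ℚ (IntermediateField.adjoin ℚ {x}) *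
      Module.finrank (IntermediateField.adjoin ℚ {x}) L = Module.finrank ℚ L :=
    Module.finrank_mul_finrank ℚ (IntermediateField.adjoin ℚ {x}) L
  rw [hfr] at h3
  have hL0 : (0 : ℝ) < Module.finrank ℚ L := by exact_mod_cast Module.finrank_pos
  have hr0 : (0 : ℝ) < g.natDegree := by exact_mod_cast h1
  have hm0 : (0 : ℝ) < m := by exact_mod_cast hm
  have h4 : (g.natDegree : ℝ) * Module.finrank (IntermediateField.adjoin ℚ {x}) L =
      Module.finrank ℚ L := by exact_mod_cast h3
  rw [le_div_iff₀ hL0]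
  refine le_trans (le_of_eq ?_) h2
  unfold N1
  rw [sdiff_empty, ← h4]
  have h5 : Real.log |(res c g : ℝ)| = Real.log ((res c g).natAbs : ℝ) := by
    rw [Nat.cast_natAbs, Int.cast_abs]
  rw [h5]
  field_simp

end Pool.Agent.Q256.T7
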