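import Mathlib
import Pool.Agent.Q256.T7.Pt
import Pool.Agent.Q256.VD.Key

set_option autoImplicit false

/-!
Superelliptic curves: the theorem for almost all curves.
-/

namespace Pool.Agent.Q256.T7

open Finset NumberField Pool.Agent.Q256.T6
open Pool.Agent.Q256.T3 (P P_coeff P_deg N1 N1_eq box_finite)
open Pool.Agent.H813R3.Voj (rho rho_pos)
open Pool.Agent.Q256.VS (offS)
open Pool.Agent.Q256.VD (key_disc orb_of_root)

/-- the comparison of the heights. -/
def HtEq : Prop := ∀ (L : Type) [Field L] [NumberField L] (x : L) (g : Polynomial ℤ),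
  Irreducible g → Polynomial.aeval x g = 0 → absLogHeight₁ x = ht g

theorem exists_g (L : Type) [Field L] [NumberField L] (x : L) :
    ∃ g : Polynomial ℤ, Irreducible g ∧ 1 ≤ g.natDegree ∧ Polynomial.aeval x g = 0 := by
  have h1 : IsAlgebraic ℤ x := (IsFractionRing.isAlgebraic_iff ℤ ℚ L).2
    (Algebra.IsAlgebraic.isAlgebraic x)
  obtain ⟨p, hp0, hp⟩ := h1
  have h2 : Polynomial.aeval x (UniqueFactorizationMonoid.factors p).prod = 0 := by
    obtain ⟨u, hu⟩ := UniqueFactorizationMonoid.factors_prod hp0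
    rw [← hu, map_mul] at hp
    rcases mul_eq_zero.1 hp with h | h
    · exact h
    · exfalso
      have h3 : IsUnit (Polynomial.aeval x (u : Polynomial ℤ)) := u.isUnit.map _
      rw [h] at h3
      exact not_isUnit_zero h3
  rw [map_multiset_prod, Multiset.prod_eq_zero_iff, Multiset.mem_map] at h2
  obtain ⟨g, hg, hg0⟩ := h2
  have hirr := UniqueFactorizationMonoid.irreducible_of_factor g hg
  refine ⟨g, hirr, ?_, hg0⟩
  by_contra hcon
  have h4 : g.natDegree = 0 := by omega
  rw [Polynomial.eq_C_of_natDegree_eq_zero h4] at hg0 hirr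
  rw [Polynomial.aeval_C] at hg0
  have h5 : g.coeff 0 = 0 := by
    have : algebraMap ℤ L (g.coeff 0) = algebraMap ℤ L 0 := by rw [hg0, map_zero]
    exact FaithfulSMul.algebraMap_injective ℤ L this
  rw [h5, Polynomial.C_0] at hirr
  exact hirr.ne_zero rfl

theorem res_ne {d : ℕ} (L : Type) [Field L] [NumberField L] (x : L) (g : Polynomial ℤ)
    (hg : Irreducible g) (h1 : 1 ≤ g.natDegree) (h0 : Polynomial.aeval x g = 0)
    (c : Fin (d + 1) → ℤ) (hne : Polynomial.aeval x (P c) ≠ 0) : res c g ≠ 0 := by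
  intro h
  obtain ⟨K, _, _, y, hfr, hy, h0y, hdiv⟩ := exists_field g hg h1
  obtain ⟨z, hz⟩ := exists_w g K y h0y c
  have h2 := norm_w g hg.ne_zero K y hfr hy h0y c z hz
  rw [h, mul_zero] at h2
  have hlc : g.leadingCoeff ≠ 0 := Polynomial.leadingCoeff_ne_zero.2 hg.ne_zero
  rcases mul_eq_zero.1 h2 with h3 | h3
  · exact pow_ne_zero _ hlc h3
  · rw [Algebra.norm_eq_zero_iff] at h3
    rw [h3] at hz
    have hlcK : (g.leadingCoeff : K) ≠ 0 := by exact_mod_cast hlc
    have h4 : Polynomial.aeval y (P c) = 0 := by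
      have h5 : (g.leadingCoeff : K) ^ d * Polynomial.aeval y (P c) = 0 := by
        rw [← hz]; simp
      exact (mul_eq_zero.1 h5).resolve_left (pow_ne_zero _ hlcK)
    obtain ⟨q, hq⟩ := hdiv _ h4
    apply hne
    rw [hq, map_mul, h0, zero_mul]

/-- the logarithm of the resultant. -/
theorem log_res {d : ℕ} (g : Polynomial ℤ) (hg : g ≠ 0) (h1 : 1 ≤ g.natDegree)
    (c : Fin (d + 1) → ℤ) (T : ℕ) (hT : 1 ≤ T) (hc : ∀ i, |c i| ≤ T) (hres : res c g ≠ 0) :
    Real.log |(res c g : ℝ)| ≤ g.natDegree * (Real.log (d + 1) + Real.log T + d * ht g) := by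
  have h2 := res_bound c T hc g
  have hM := one_le_mah g hg
  have hTr : (1 : ℝ) ≤ T := by exact_mod_cast hT
  have hr0 : (0 : ℝ) < g.natDegree := by exact_mod_cast h1
  have hd0 : (0 : ℝ) < (d : ℝ) + 1 := by positivity
  have h3 : 0 < |(res c g : ℝ)| := abs_pos.2 (by exact_mod_cast hres)
  refine (Real.log_le_log h3 h2).trans (le_of_eq ?_)
  rw [Real.log_mul (by positivity) (by positivity), Real.log_pow, Real.log_pow,
    Real.log_mul (by positivity) (by positivity)]
  unfold ht
  field_simp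

/-- the forms `F` of height at most `T` for which the curve `w ^ m = F(a, b)` has a point
`(a : b : w)`, `w ≠ 0`, over some number field `L`, such that `x = (a : b)` has degree `r ≤ R` and
height `h` with `Q r h`, and the logarithmic discriminant of `L` is smaller than `B r h`. The point
`(1 : 0)` has degree `1` and height `0`, and so has `a / 0 = 0`. -/
def Exc (m d R T : ℕ) (Q : ℕ → ℝ → Prop) (B : ℕ → ℝ → ℝ) : Set (Fin (d + 1) → ℤ) :=
  {c | (∀ i, |c i| ≤ T) ∧ ∃ (L : Type) (_ : Field L) (_ : NumberField L) (a b w : L),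
    (a ≠ 0 ∨ b ≠ 0) ∧ w ≠ 0 ∧ w ^ m = ∑ i, (c i : L) * a ^ (i : ℕ) * b ^ (d - (i : ℕ)) ∧
    (minpoly ℚ (a / b)).natDegree ≤ R ∧ Q (minpoly ℚ (a / b)).natDegree (absLogHeight₁ (a / b)) ∧
    Real.log |(discr L : ℝ)| / Module.finrank ℚ L <
      B (minpoly ℚ (a / b)).natDegree (absLogHeight₁ (a / b))}

theorem exc_finite (m d R T : ℕ) (Q : ℕ → ℝ → Prop) (B : ℕ → ℝ → ℝ) :
    (Exc m d R T Q B).Finite := (box_finite d T).subset (fun _ h => h.1)

/-- the bound for the discriminant. -/
noncomputable def bm (m k d T : ℕ) (κ : ℝ) (r : ℕ) (h : ℝ) : ℝ :=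
  min (((d : ℝ) - 2 * r) * h + Real.log T) (((d : ℝ) + 1) / r * Real.log T - (r + 1) * h) -
    κ / r * Real.log T - (k * h + 1 / m * (Real.log T + Real.log (d + 1)))

theorem P_hom {d : ℕ} {L : Type} [Field L] [NumberField L] (c : Fin (d + 1) → ℤ) (a b : L)
    (hb : b ≠ 0) : ∑ i, (c i : L) * a ^ (i : ℕ) * b ^ (d - (i : ℕ)) =
      b ^ d * Polynomial.aeval (a / b) (P c) := by
  unfold P
  rw [map_sum, mul_sum]
  refine sum_congr rfl (fun i _ => ?_)
  simp only [map_mul, map_pow, Polynomial.aeval_X, eq_intCast, map_intCast]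
  have h4 : b ^ d = b ^ (d - (i : ℕ)) * b ^ (i : ℕ) := by
    rw [← pow_add]; congr 1; omega
  rw [h4, div_pow]
  field_simp

theorem P_inf {d : ℕ} {L : Type} [Field L] [NumberField L] (c : Fin (d + 1) → ℤ) (a : L) :
    ∑ i, (c i : L) * a ^ (i : ℕ) * (0 : L) ^ (d - (i : ℕ)) = (c (Fin.last d) : L) * a ^ d := by
  rw [Fin.sum_univ_castSucc]
  have h1 : ∀ i : Fin d, (c i.castSucc : L) * a ^ ((i.castSucc : Fin (d + 1)) : ℕ) *
      (0 : L) ^ (d - ((i.castSucc : Fin (d + 1)) : ℕ)) = 0 := by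
    intro i
    have h2 : d - ((i.castSucc : Fin (d + 1)) : ℕ) ≠ 0 := by
      rw [Fin.val_castSucc]; omega
    rw [zero_pow h2, mul_zero]
  rw [sum_eq_zero (fun i _ => h1 i), zero_add]
  simp

theorem exc_sub (hH : HtEq) (m k d R T : ℕ) (hm : 1 ≤ m) (hd : d = m * k) (hT : 1 ≤ T) (A : ℕ)
    (κ : ℝ) :
    Exc m d R T (fun _ h => h ≤ A * Real.log T) (bm m k d T κ) ⊆
      Bad d ∅ R T (fun _ h => h ≤ A * Real.log T) (bd d T κ) := by
  have hTr : (1 : ℝ) ≤ T := by exact_mod_cast hT
  have hL : 0 ≤ Real.log T := Real.log_nonneg hTr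
  have hm0 : (0 : ℝ) < m := by exact_mod_cast hm
  have hd0 : 0 ≤ Real.log ((d : ℝ) + 1) :=
    Real.log_nonneg (by have : (0 : ℝ) ≤ d := Nat.cast_nonneg d; linarith)
  rintro c ⟨hbox, L, _, _, a, b, w, hab, hw, hcurve, hdeg, hht, hlt⟩
  refine ⟨hbox, ?_⟩
  by_cases hb : b = 0
  · left
    subst hb
    have ha : a ≠ 0 := hab.resolve_right (fun h => h rfl)
    rw [P_inf] at hcurve
    rw [div_zero, minpoly.zero, Polynomial.natDegree_X] at hlt
    rw [div_zero] at hht
    have hh0 : absLogHeight₁ (0 : L) = 0 := by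
      rw [hH L 0 Polynomial.X Polynomial.irreducible_X (by simp)]
      unfold ht mah
      rw [Polynomial.map_X, Polynomial.mahlerMeasure_eq_leadingCoeff_mul_prod_roots,
        Polynomial.roots_X]
      simp
    rw [hh0] at hlt hht
    have hcd : c (Fin.last d) ≠ 0 := by
      intro h
      rw [h, Int.cast_zero, zero_mul] at hcurve
      exact pow_ne_zero _ hw hcurve
    refine ⟨hcd, hht, ?_⟩
    -- the root of `c_d`
    have hroot : (w / a ^ k) ^ m = ((c (Fin.last d) : ℤ) : L) := by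
      rw [div_pow, hcurve, ← pow_mul, mul_comm k m, ← hd]
      field_simp
    have h1 := key_disc (L := L) (r := 1) ∅ (fun _ => c (Fin.last d)) (fun _ => hcd)
      (fun _ => m) (fun _ => hm) (fun _ => orb_of_root ∅ _ m hm _ hroot)
    rw [Fin.prod_univ_one, Fin.sum_univ_one] at h1
    have h2 : Real.log (offS ∅ (c (Fin.last d))) ≤ Real.log T := by
      have h3 : offS ∅ (c (Fin.last d)) = (c (Fin.last d)).natAbs := by
        unfold offS
        rw [sdiff_empty]
        exact (Nat.prod_primeFactors_pow_factorization (Int.natAbs_ne_zero.2 hcd)).symm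
      rw [h3]
      have h4 : 0 < (c (Fin.last d)).natAbs := Int.natAbs_pos.2 hcd
      have h5 : (c (Fin.last d)).natAbs ≤ T := by
        have := hbox (Fin.last d)
        have h6 := Int.abs_eq_natAbs (c (Fin.last d))
        omega
      exact Real.log_le_log (by exact_mod_cast h4) (by exact_mod_cast h5)
    have h3 : 1 / (m : ℝ) * Real.log (offS ∅ (c (Fin.last d))) ≤ 1 / (m : ℝ) * Real.log T :=
      mul_le_mul_of_nonneg_left h2 (by positivity)
    have h4 : 0 ≤ 1 / (m : ℝ) * Real.log ((d : ℝ) + 1) := by positivity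
    rw [N1_eq]
    unfold bm at hlt
    unfold bd
    rw [Nat.cast_one, div_one, one_mul]
    push_cast at hlt h1 ⊢
    simp only [mul_zero, zero_add, sub_zero, mul_add] at hlt ⊢
    linarith
  · right
    obtain ⟨x, hx⟩ : ∃ x : L, x = a / b := ⟨_, rfl⟩
    rw [← hx] at hdeg hht hlt
    obtain ⟨g, hg, hg1, hg0⟩ := exists_g L x
    rw [hH L x g hg hg0] at hht
    rw [natDegree_eq L x g hg hg1 hg0, hH L x g hg hg0] at hlt
    rw [natDegree_eq L x g hg hg1 hg0] at hdeg
    rw [P_hom c a b hb, ← hx] at hcurve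
    have hroot : (w / b ^ k) ^ m = Polynomial.aeval x (P c) := by
      rw [div_pow, hcurve, ← pow_mul, mul_comm k m, ← hd]
      field_simp
    have hne : Polynomial.aeval x (P c) ≠ 0 := by
      intro h
      rw [h, mul_zero] at hcurve
      exact pow_ne_zero _ hw hcurve
    have hres := res_ne L x g hg hg1 hg0 c hne
    refine ⟨g, hg, hg1, hdeg, hres, hht, ?_⟩
    have h1 := disc_ge m k hm hd L g hg hg1 x (w / b ^ k) hg0 c hroot hres
    have h2 := log_res g hg.ne_zero hg1 c T hT hbox hres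
    have hr0 : (0 : ℝ) < g.natDegree := by exact_mod_cast hg1
    have h3 : 1 / ((g.natDegree : ℝ) * m) * Real.log |(res c g : ℝ)| ≤
        1 / (m : ℝ) * (Real.log (d + 1) + Real.log T) + k * ht g := by
      calc 1 / ((g.natDegree : ℝ) * m) * Real.log |(res c g : ℝ)| ≤
            1 / ((g.natDegree : ℝ) * m) *
              (g.natDegree * (Real.log (d + 1) + Real.log T + d * ht g)) :=
            mul_le_mul_of_nonneg_left h2 (by positivity)
        _ = 1 / (m : ℝ) * (Real.log (d + 1) + Real.log T) + (d / m) * ht g := by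
            field_simp
        _ = _ := by
            have h4 : (d : ℝ) / m = k := by rw [hd]; push_cast; field_simp
            rw [h4]
    unfold bm at hlt
    unfold bd
    linarith

end Pool.Agent.Q256.T7
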