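import Mathlib
import Pool.Agent.Q256.T7.Fin
import Pool.Agent.Q98.T7.Height

set_option autoImplicit false

/-!
Superelliptic curves: Vojta's inequality for almost all curves.
-/

namespace Pool.Agent.Q256.T7

open Finset NumberField Pool.Agent.Q256.T6
open Pool.Agent.Q256.T3 (box_finite)

theorem htEq : HtEq := fun L _ _ x g hg h0 => Pool.Agent.Q98.T7.abs_height L x g hg h0

theorem abs_nonneg_ht (L : Type) [Field L] [NumberField L] (x : L) : 0 ≤ absLogHeight₁ x := by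
  obtain ⟨g, hg, hg1, hg0⟩ := exists_g L x
  rw [htEq L x g hg hg0]
  exact ht_nonneg g hg.ne_zero

theorem deg_pos (L : Type) [Field L] [NumberField L] (x : L) : 1 ≤ (minpoly ℚ x).natDegree :=
  minpoly.natDegree_pos (Algebra.IsIntegral.isIntegral x)

theorem exc_bm (m k d R : ℕ) (hm : 1 ≤ m) (hd : d = m * k) (η : ℝ) (hη : 0 < η) (A : ℕ) :
    ∃ C : ℝ, 0 < C ∧ ∀ (T : ℕ) (κ : ℝ), 1 ≤ T →
      ((Exc m d R T (fun _ h => h ≤ A * Real.log T) (bm m k d T κ)).ncard : ℝ) ≤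
        C * (T : ℝ) ^ ((d : ℝ) + 1 - κ + η) := by
  obtain ⟨C, hC, h1⟩ := bad_bd d R ∅ η hη A
  refine ⟨C, hC, fun T κ hT => le_trans ?_ (h1 T κ hT)⟩
  exact_mod_cast Set.ncard_le_ncard (exc_sub htEq m k d R T hm hd hT A κ)
    (bad_finite _ _ _ _ _ _)

theorem box_card (d T : ℕ) (hT : 1 ≤ T) (E : Set (Fin (d + 1) → ℤ))
    (hE : ∀ c ∈ E, ∀ i, |c i| ≤ T) : (E.ncard : ℝ) ≤ (3 * (T : ℝ)) ^ (d + 1) := by
  classical
  have h1 : E ⊆ ((Fintype.piFinset (fun _ : Fin (d + 1) => Icc (-(T : ℤ)) T) :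
      Finset (Fin (d + 1) → ℤ)) : Set (Fin (d + 1) → ℤ)) := by
    intro c hc
    rw [mem_coe, Fintype.mem_piFinset]
    intro i
    rw [mem_Icc, ← abs_le]
    exact hE c hc i
  have h2 := Set.ncard_le_ncard h1 (finite_toSet _)
  rw [Set.ncard_coe_finset, Fintype.card_piFinset, prod_const, card_univ, Fintype.card_fin,
    Int.card_Icc] at h2
  have h7 : ((T : ℤ) + 1 - -(T : ℤ)).toNat = 2 * T + 1 := by omega
  rw [h7] at h2
  have h3 : (E.ncard : ℝ) ≤ (2 * (T : ℝ) + 1) ^ (d + 1) := by exact_mod_cast h2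
  have hTr : (1 : ℝ) ≤ T := by exact_mod_cast hT
  exact h3.trans (pow_le_pow_left₀ (by positivity) (by linarith) _)

/-- the comparison of the two bounds for large `T`. -/
theorem bm_ge (m k d R T r : ℕ) (hm : 1 ≤ m) (hr : 1 ≤ r) (hrR : r ≤ R)
    (κ η h : ℝ) (hη : 0 < η)
    (hlog : (2 * R / η) * Real.log ((d : ℝ) + 1) ≤ Real.log T)
    (h1 : (r : ℝ) * (2 * r - 2) * h ≤ (r * (1 - 1 / (m : ℝ)) - κ) * Real.log T)
    (h2 : (r : ℝ) * (d + r - 1) * h ≤ (d + 1 - r / (m : ℝ) - κ) * Real.log T) :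
    ((d : ℝ) - k - 2) * h ≤ bm m k d T (κ - η / 2) r h := by
  have hm0 : (0 : ℝ) < m := by exact_mod_cast hm
  have hm1 : (1 : ℝ) ≤ m := by exact_mod_cast hm
  have hr0 : (0 : ℝ) < r := by exact_mod_cast hr
  have hR0 : (0 : ℝ) < R := by exact_mod_cast (by omega : 0 < R)
  have hrR' : (r : ℝ) ≤ R := by exact_mod_cast hrR
  have hd0 : 0 ≤ Real.log ((d : ℝ) + 1) :=
    Real.log_nonneg (by have : (0 : ℝ) ≤ d := Nat.cast_nonneg d; linarith)
  -- the gain
  have hL0 : 0 ≤ Real.log T := le_trans (by positivity) hlog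
  have hgain : 1 / (m : ℝ) * Real.log ((d : ℝ) + 1) ≤ η / 2 / r * Real.log T := by
    have e1 : 1 / (m : ℝ) * Real.log ((d : ℝ) + 1) ≤ 1 * Real.log ((d : ℝ) + 1) :=
      mul_le_mul_of_nonneg_right (by rw [div_le_one hm0]; exact hm1) hd0
    have e2 : Real.log ((d : ℝ) + 1) ≤ η / (2 * R) * Real.log T := by
      have e3 := mul_le_mul_of_nonneg_left hlog (by positivity : 0 ≤ η / (2 * (R : ℝ)))
      have e4 : η / (2 * (R : ℝ)) * ((2 * R / η) * Real.log ((d : ℝ) + 1)) =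
          Real.log ((d : ℝ) + 1) := by field_simp
      rwa [e4] at e3
    have e5 : η / (2 * R) * Real.log T ≤ η / 2 / r * Real.log T := by
      refine mul_le_mul_of_nonneg_right ?_ hL0
      rw [div_div]
      exact div_le_div_of_nonneg_left hη.le (by positivity) (by linarith)
    linarith
  have h1' : (2 * (r : ℝ) - 2) * h ≤ (1 - 1 / (m : ℝ) - κ / r) * Real.log T := by
    have e1 : (2 * (r : ℝ) - 2) * h ≤
        ((r * (1 - 1 / (m : ℝ)) - κ) * Real.log T) / r := by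
      rw [le_div_iff₀ hr0]; linarith
    have e2 : ((r * (1 - 1 / (m : ℝ)) - κ) * Real.log T) / r =
        (1 - 1 / (m : ℝ) - κ / r) * Real.log T := by field_simp
    rwa [e2] at e1
  have h2' : ((d : ℝ) + r - 1) * h ≤ ((d + 1) / r - 1 / (m : ℝ) - κ / r) * Real.log T := by
    have e1 : ((d : ℝ) + r - 1) * h ≤ ((d + 1 - r / (m : ℝ) - κ) * Real.log T) / r := by
      rw [le_div_iff₀ hr0]; linarith
    have e2 : ((d + 1 - r / (m : ℝ) - κ) * Real.log T) / r =
        ((d + 1) / r - 1 / (m : ℝ) - κ / r) * Real.log T := by field_simp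
    rwa [e2] at e1
  have hκ : (κ - η / 2) / r * Real.log T = κ / r * Real.log T - η / 2 / r * Real.log T := by
    field_simp
  unfold bm
  rw [hκ, le_sub_iff_add_le, le_sub_iff_add_le]
  refine le_min ?_ ?_
  · linarith
  · linarith

theorem exc_vojta (m k d R : ℕ) (hm : 1 ≤ m) (hd : d = m * k) (hd1 : 1 ≤ d) (η : ℝ) (hη : 0 < η) :
    ∃ C : ℝ, 0 < C ∧ ∀ (T : ℕ) (κ : ℝ), 1 ≤ T → 0 ≤ κ →
      ((Exc m d R T (fun r h => (r : ℝ) * (2 * r - 2) * h ≤
          (r * (1 - 1 / (m : ℝ)) - κ) * Real.log T ∧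
        (r : ℝ) * (d + r - 1) * h ≤ (d + 1 - r / (m : ℝ) - κ) * Real.log T)
        (fun _ h => ((d : ℝ) - k - 2) * h)).ncard : ℝ) ≤
          C * (T : ℝ) ^ ((d : ℝ) + 1 - κ + η) := by
  obtain ⟨C1, hC1, h1⟩ := exc_bm m k d R hm hd (η / 2) (by positivity) (d + 1)
  obtain ⟨T0, hT0⟩ : ∃ T0 : ℕ, T0 = ⌈((d : ℝ) + 1) ^ (2 * R / η)⌉₊ + 1 := ⟨_, rfl⟩
  have hT01 : 1 ≤ T0 := by omega
  have hT0r : (1 : ℝ) ≤ T0 := by exact_mod_cast hT01
  have hm0 : (0 : ℝ) < m := by exact_mod_cast hm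
  have hdr : (1 : ℝ) ≤ d := by exact_mod_cast hd1
  refine ⟨C1 + (3 * (T0 : ℝ)) ^ (d + 1) * (T0 : ℝ) ^ (R : ℝ) + 3 ^ (d + 1), by positivity,
    fun T κ hT hκ => ?_⟩
  have hTr : (1 : ℝ) ≤ T := by exact_mod_cast hT
  have hTp : (0 : ℝ) < T := by linarith
  have hL : 0 ≤ Real.log T := Real.log_nonneg hTr
  obtain ⟨E, hE⟩ : ∃ E : Set (Fin (d + 1) → ℤ), E = Exc m d R T (fun r h =>
      (r : ℝ) * (2 * r - 2) * h ≤ (r * (1 - 1 / (m : ℝ)) - κ) * Real.log T ∧
        (r : ℝ) * (d + r - 1) * h ≤ (d + 1 - r / (m : ℝ) - κ) * Real.log T)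
        (fun _ h => ((d : ℝ) - k - 2) * h) := ⟨_, rfl⟩
  rw [← hE]
  have hpow : 0 ≤ (T : ℝ) ^ ((d : ℝ) + 1 - κ + η) := by positivity
  by_cases hbig : T0 ≤ T
  · -- large `T`
    have hlog : (2 * R / η) * Real.log ((d : ℝ) + 1) ≤ Real.log T := by
      rw [← Real.log_rpow (by positivity)]
      refine Real.log_le_log (by positivity) ?_
      have e1 : ((d : ℝ) + 1) ^ (2 * R / η) ≤ T0 := by
        rw [hT0]; push_cast
        have := Nat.le_ceil (((d : ℝ) + 1) ^ (2 * (R : ℝ) / η))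
        linarith
      exact e1.trans (by exact_mod_cast hbig)
    have hsub : E ⊆ Exc m d R T (fun _ h => h ≤ (d + 1 : ℕ) * Real.log T)
        (bm m k d T (κ - η / 2)) := by
      rw [hE]
      rintro c ⟨hbox, L, _, _, a, b, w, hab, hw, hcurve, hdeg, ⟨hq1, hq2⟩, hlt⟩
      refine ⟨hbox, L, inferInstance, inferInstance, a, b, w, hab, hw, hcurve, hdeg, ?_, ?_⟩
      · have hh0 := abs_nonneg_ht L (a / b)
        have hr1 : (1 : ℝ) ≤ (minpoly ℚ (a / b)).natDegree := by exact_mod_cast deg_pos L (a / b)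
        have e1 : 1 * absLogHeight₁ (a / b) ≤ ((minpoly ℚ (a / b)).natDegree : ℝ) *
            (d + (minpoly ℚ (a / b)).natDegree - 1) * absLogHeight₁ (a / b) :=
          mul_le_mul_of_nonneg_right (one_le_mul_of_one_le_of_one_le hr1 (by linarith)) hh0
        have e2 : ((d : ℝ) + 1 - (minpoly ℚ (a / b)).natDegree / (m : ℝ) - κ) * Real.log T ≤
            (d + 1) * Real.log T := by
          refine mul_le_mul_of_nonneg_right ?_ hL
          have : 0 ≤ ((minpoly ℚ (a / b)).natDegree : ℝ) / (m : ℝ) := by positivity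
          linarith
        change absLogHeight₁ (a / b) ≤ _
        push_cast
        linarith
      · refine lt_of_lt_of_le hlt ?_
        exact bm_ge m k d R T _ hm (deg_pos L (a / b)) hdeg κ η _ hη hlog hq1 hq2
    have h2 : (E.ncard : ℝ) ≤ C1 * (T : ℝ) ^ ((d : ℝ) + 1 - (κ - η / 2) + η / 2) := by
      refine le_trans ?_ (h1 T (κ - η / 2) hT)
      exact_mod_cast Set.ncard_le_ncard hsub (exc_finite _ _ _ _ _ _)
    have h3 : (d : ℝ) + 1 - (κ - η / 2) + η / 2 = (d : ℝ) + 1 - κ + η := by ring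
    rw [h3] at h2
    refine h2.trans (mul_le_mul_of_nonneg_right ?_ hpow)
    have : 0 ≤ (3 * (T0 : ℝ)) ^ (d + 1) * (T0 : ℝ) ^ (R : ℝ) := by positivity
    have : (0 : ℝ) ≤ 3 ^ (d + 1) := by positivity
    linarith
  · -- small `T`
    push Not at hbig
    have hTT0 : (T : ℝ) ≤ T0 := by exact_mod_cast hbig.le
    have hbox : ∀ c ∈ E, ∀ i, |c i| ≤ T := by rw [hE]; exact fun c hc => hc.1
    have h2 := box_card d T hT E hbox
    rcases Nat.eq_or_lt_of_le hT with hT1 | hT1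
    · -- `T = 1`
      rw [← hT1] at h2 ⊢
      rw [Nat.cast_one, mul_one] at h2
      rw [Nat.cast_one, Real.one_rpow, mul_one]
      have : 0 ≤ (3 * (T0 : ℝ)) ^ (d + 1) * (T0 : ℝ) ^ (R : ℝ) := by positivity
      linarith
    · by_cases hκR : κ ≤ R
      · have e1 : (T : ℝ) ^ (-(R : ℝ)) ≤ (T : ℝ) ^ ((d : ℝ) + 1 - κ + η) :=
          Real.rpow_le_rpow_of_exponent_le hTr (by linarith)
        have e2 : 1 ≤ (T0 : ℝ) ^ (R : ℝ) * (T : ℝ) ^ (-(R : ℝ)) := by
          rw [Real.rpow_neg hTp.le, ← div_eq_mul_inv, one_le_div (by positivity)]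
          exact Real.rpow_le_rpow hTp.le hTT0 (Nat.cast_nonneg _)
        calc (E.ncard : ℝ) ≤ (3 * (T : ℝ)) ^ (d + 1) := h2
          _ ≤ (3 * (T0 : ℝ)) ^ (d + 1) * ((T0 : ℝ) ^ (R : ℝ) * (T : ℝ) ^ (-(R : ℝ))) := by
              have e3 : (3 * (T : ℝ)) ^ (d + 1) ≤ (3 * (T0 : ℝ)) ^ (d + 1) :=
                pow_le_pow_left₀ (by positivity) (by linarith) _
              exact e3.trans (le_mul_of_one_le_right (by positivity) e2)
          _ ≤ (3 * (T0 : ℝ)) ^ (d + 1) * ((T0 : ℝ) ^ (R : ℝ) *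
              (T : ℝ) ^ ((d : ℝ) + 1 - κ + η)) :=
              mul_le_mul_of_nonneg_left (mul_le_mul_of_nonneg_left e1 (by positivity))
                (by positivity)
          _ = ((3 * (T0 : ℝ)) ^ (d + 1) * (T0 : ℝ) ^ (R : ℝ)) *
              (T : ℝ) ^ ((d : ℝ) + 1 - κ + η) := by ring
          _ ≤ _ := by
              refine mul_le_mul_of_nonneg_right ?_ hpow
              have : (0 : ℝ) ≤ 3 ^ (d + 1) := by positivity
              linarith
      · -- no points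
        push Not at hκR
        have hempty : E = ∅ := by
          rw [hE, Set.eq_empty_iff_forall_notMem]
          rintro c ⟨-, L, _, _, a, b, w, hab, hw, hcurve, hdeg, ⟨hq1, hq2⟩, hlt⟩
          have hh0 := abs_nonneg_ht L (a / b)
          have hr1 : (1 : ℝ) ≤ (minpoly ℚ (a / b)).natDegree := by
            exact_mod_cast deg_pos L (a / b)
          have hrR : ((minpoly ℚ (a / b)).natDegree : ℝ) ≤ R := by exact_mod_cast hdeg
          have e1 : 0 ≤ ((minpoly ℚ (a / b)).natDegree : ℝ) *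
            (2 * (minpoly ℚ (a / b)).natDegree - 2) * absLogHeight₁ (a / b) :=
            mul_nonneg (mul_nonneg (by linarith) (by linarith)) hh0
          have hLp : 0 < Real.log T := Real.log_pos (by exact_mod_cast hT1)
          have e2 : ((minpoly ℚ (a / b)).natDegree : ℝ) * (1 - 1 / (m : ℝ)) - κ < 0 := by
            have e3 : 0 ≤ ((minpoly ℚ (a / b)).natDegree : ℝ) * (1 / (m : ℝ)) := by positivity
            linarith
          have e4 := mul_neg_of_neg_of_pos e2 hLp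
          linarith
        rw [hempty, Set.ncard_empty, Nat.cast_zero]
        positivity

end Pool.Agent.Q256.T7
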